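import Pool.Agent.Helper74.CC.Basic

open Cardinal Ordinal Filter Set

namespace H74CC

/-- A strictly increasing chain of length `ω_2` in `P(ω)/fin`. -/
def HasChain : Prop :=
  ∃ A : (ℵ_ 2 : Cardinal.{0}).ord.ToType → Set ℕ, ∀ i j, i < j →
    (A i \ A j).Finite ∧ (A j \ A i).Infinite

theorem hasChain_of_prod (A : (ℵ_ 2 : Cardinal.{0}).ord.ToType → Set (ℕ × ℕ))
    (h : ∀ i j, i < j → (A i \ A j).Finite ∧ (A j \ A i).Infinite) : HasChain := by
  refine ⟨fun i => Nat.pairEquiv '' A i, fun i j hij => ?_⟩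
  rw [← Set.image_diff Nat.pairEquiv.injective, ← Set.image_diff Nat.pairEquiv.injective]
  exact ⟨(h i j hij).1.image _, (h i j hij).2.image Nat.pairEquiv.injective.injOn⟩

theorem mk_Iio_le (i : (ℵ_ 2 : Cardinal.{0}).ord.ToType) : #(Set.Iio i) ≤ ℵ_ 1 := by
  have h1 : #(Set.Iio i) < ℵ_ 2 := by
    have := Cardinal.mk_Iio_lt i (by rw [mk_toType, card_ord, type_toType])
    rwa [mk_toType, card_ord] at this
  have h2 : #(Set.Iio i) < Order.succ (ℵ_ 1) := by
    rw [← aleph_succ]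
    have : Order.succ (1 : Ordinal.{0}) = 2 := by
      rw [Order.succ_eq_add_one]
      norm_num
    rw [this]
    exact h1
  exact Order.lt_succ_iff.1 h2

theorem aleph2_regular : (ℵ_ 2 : Cardinal.{0}).IsRegular := by
  have h := isRegular_aleph_add_one (1 : Ordinal.{0})
  have : (1 : Ordinal.{0}) + 1 = 2 := by norm_num
  rwa [this] at h

theorem aleph1_lt_aleph2 : (ℵ_ 1 : Cardinal.{0}) < ℵ_ 2 := by
  rw [aleph_lt_aleph]
  exact_mod_cast Nat.lt_succ_self 1

theorem case_one {M : Type} [LinearOrder M] [WellFoundedLT M] (D : Set M) (k : M → ℕ)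
    (hk : Set.InjOn k D) (F : M → ℕ → M) (hF : ∀ a b, a < b → ∀ᶠ n in atTop, F a n < F b n)
    (h : ℕ → ℕ)
    (hX : ℵ_ 2 ≤ #{a : M | (∀ n, F a n ∈ D) ∧ ∃ᶠ n in atTop, k (F a n) ≤ h n}) : HasChain := by
  obtain ⟨f, hf, hfX⟩ := exists_strictMono (ℵ_ 2) _ hX
  apply hasChain_of_prod
    (fun i => {p : ℕ × ℕ | p.2 ≤ h p.1 ∧ ∃ d ∈ D, k d = p.2 ∧ d ≤ F (f i) p.1})
  intro i j hij
  obtain ⟨N, hN⟩ := eventually_atTop.1 (hF _ _ (hf hij))
  constructor
  · apply Set.Finite.subset ((Set.finite_Iio N).biUnion fun n _ =>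
      (Set.finite_Iic (h n)).image fun m => (n, m))
    rintro ⟨n, m⟩ ⟨⟨h1, d, hd, h2, h3⟩, h4⟩
    have hn : n < N := by
      by_contra hn
      exact h4 ⟨h1, d, hd, h2, h3.trans (hN n (not_lt.1 hn)).le⟩
    simp only [Set.mem_iUnion]
    exact ⟨n, hn, m, h1, rfl⟩
  · have h1 : {n | N ≤ n ∧ k (F (f j) n) ≤ h n}.Infinite := by
      rw [← Nat.frequently_atTop_iff_infinite]
      exact ((hfX j).2.and_eventually (eventually_ge_atTop N)).mono fun n hn => ⟨hn.2, hn.1⟩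
    have h2 : ((fun n => (n, k (F (f j) n))) '' {n | N ≤ n ∧ k (F (f j) n) ≤ h n}).Infinite :=
      h1.image fun a _ b _ hab => (Prod.ext_iff.1 hab).1
    refine h2.mono ?_
    rintro _ ⟨n, ⟨hn, hkn⟩, rfl⟩
    refine ⟨⟨hkn, F (f j) n, (hfX j).1 n, rfl, le_rfl⟩, ?_⟩
    rintro ⟨-, d, hd, h3, h4⟩
    have h5 := hk hd ((hfX j).1 n) h3
    rw [h5] at h4
    exact absurd (hN n hn) (not_lt.2 h4)

theorem case_two {M : Type} [LinearOrder M] [WellFoundedLT M] (D : Set M) (k : M → ℕ)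
    (F : M → ℕ → M) (hD : ℵ_ 2 ≤ #{a : M | ∀ n, F a n ∈ D})
    (hX : ∀ h : ℕ → ℕ,
      #{a : M | (∀ n, F a n ∈ D) ∧ ∃ᶠ n in atTop, k (F a n) ≤ h n} < ℵ_ 2) : HasChain := by
  obtain ⟨g, hg⟩ := chain_of_directed (P := ℕ → ℕ) (fun f g => ∀ᶠ n in atTop, f n < g n)
    (ℵ_ 2 : Cardinal.{0}).ord.ToType (by
      intro i H
      by_contra hcon
      push Not at hcon
      have h1 : {a : M | ∀ n, F a n ∈ D} ⊆ ⋃ j : Set.Iio i,
          {a : M | (∀ n, F a n ∈ D) ∧ ∃ᶠ n in atTop, k (F a n) ≤ H j n} := by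
        intro a ha
        obtain ⟨j, hj⟩ := hcon fun n => k (F a n)
        rw [Set.mem_iUnion]
        exact ⟨j, ha, hj⟩
      have h2 := (Cardinal.mk_le_mk_of_subset h1).trans (Cardinal.mk_iUnion_le _)
      have h3 : (⨆ j : Set.Iio i,
          #{a : M | (∀ n, F a n ∈ D) ∧ ∃ᶠ n in atTop, k (F a n) ≤ H j n}) ≤ ℵ_ 1 := by
        apply ciSup_le'
        intro j
        have h4 : #{a : M | (∀ n, F a n ∈ D) ∧ ∃ᶠ n in atTop, k (F a n) ≤ H j n}
            < Order.succ (ℵ_ 1) := by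
          rw [← aleph_succ]
          have : Order.succ (1 : Ordinal.{0}) = 2 := by
            rw [Order.succ_eq_add_one]
            norm_num
          rw [this]
          exact hX (H j)
        exact Order.lt_succ_iff.1 h4
      have h5 : #(Set.Iio i) * (⨆ j : Set.Iio i,
          #{a : M | (∀ n, F a n ∈ D) ∧ ∃ᶠ n in atTop, k (F a n) ≤ H j n}) ≤ ℵ_ 1 :=
        (mul_le_mul' (mk_Iio_le i) h3).trans (Cardinal.mul_eq_self (aleph0_le_aleph 1)).le
      exact absurd (hD.trans (h2.trans h5)) (not_le.2 aleph1_lt_aleph2))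
  apply hasChain_of_prod (fun i => {p : ℕ × ℕ | p.2 ≤ g i p.1})
  intro i j hij
  obtain ⟨N, hN⟩ := eventually_atTop.1 (hg _ _ hij)
  constructor
  · apply Set.Finite.subset ((Set.finite_Iio N).biUnion fun n _ =>
      (Set.finite_Iic (g i n)).image fun m => (n, m))
    rintro ⟨n, m⟩ ⟨h1, h4⟩
    have hn : n < N := by
      by_contra hn
      exact h4 (le_trans h1 (hN n (not_lt.1 hn)).le)
    simp only [Set.mem_iUnion]
    exact ⟨n, hn, m, h1, rfl⟩
  · have h2 : ((fun n => (n, g j n)) '' Set.Ici N).Infinite :=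
      (Set.Ici_infinite N).image fun a _ b _ hab => (Prod.ext_iff.1 hab).1
    refine h2.mono ?_
    rintro _ ⟨n, hn, rfl⟩
    refine ⟨show g j n ≤ g j n from le_rfl, ?_⟩
    intro h3
    exact absurd (hN n hn) (not_lt.2 h3)

theorem chain_of_countable {M : Type} [LinearOrder M] [WellFoundedLT M] (D : Set M)
    (hDc : D.Countable) (F : M → ℕ → M) (hF : ∀ a b, a < b → ∀ᶠ n in atTop, F a n < F b n)
    (hD : ℵ_ 2 ≤ #{a : M | ∀ n, F a n ∈ D}) : HasChain := by
  obtain ⟨k, hk⟩ := Set.countable_iff_exists_injOn.1 hDc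
  by_cases h : ∃ h : ℕ → ℕ,
      ℵ_ 2 ≤ #{a : M | (∀ n, F a n ∈ D) ∧ ∃ᶠ n in atTop, k (F a n) ≤ h n}
  · obtain ⟨h, hh⟩ := h
    exact case_one D k hk F hF h hh
  · push Not at h
    exact case_two D k F hD h

theorem chain_of_aleph_one {M : Type} [LinearOrder M] [WellFoundedLT M] (X C : Set M)
    (hX : ℵ_ 2 ≤ #X) (hC : #C ≤ ℵ_ 1) (F : M → ℕ → M)
    (hF : ∀ a b, a < b → ∀ᶠ n in atTop, F a n < F b n)
    (hXC : ∀ a ∈ X, ∀ n, F a n ∈ C) : HasChain := by
  classical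
  have he : Nonempty (C ↪ (ω_ 1 : Ordinal.{0}).ToType) := by
    rw [← Cardinal.le_def, mk_toType, card_omega]
    exact hC
  obtain ⟨e⟩ := he
  have hb : ∀ a : X, ∃ b : (ω_ 1 : Ordinal.{0}).ToType, ∀ n, e ⟨F a n, hXC a a.2 n⟩ < b := by
    intro a
    have h1 : (⨆ n : ℕ, Order.succ ((e ⟨F a n, hXC a a.2 n⟩).toOrd : Ordinal.{0})) < ω_ 1 := by
      apply Ordinal.iSup_lt_of_lt_cof
      · rw [isRegular_aleph_one.cof_omega_eq, mk_nat, ← aleph_zero, aleph_lt_aleph]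
        exact zero_lt_one
      · intro n
        exact (isSuccLimit_omega 1).succ_lt (e ⟨F a n, hXC a a.2 n⟩).toOrd.2
    refine ⟨ToType.mk ⟨_, h1⟩, fun n => ?_⟩
    rw [← ToType.mk.symm.lt_iff_lt, OrderIso.symm_apply_apply, ← Subtype.coe_lt_coe]
    refine (Order.lt_succ _).trans_le ?_
    exact Ordinal.le_iSup
      (fun n : ℕ => Order.succ ((e ⟨F a n, hXC a a.2 n⟩).toOrd : Ordinal.{0})) n
  choose b hb using hb
  obtain ⟨w, hw⟩ := Cardinal.infinite_pigeonhole_card b (ℵ_ 2) hX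
    (aleph0_le_aleph 2) (by
      rw [aleph2_regular.cof_ord, mk_toType, card_omega]
      exact aleph1_lt_aleph2)
  let D : Set M := Subtype.val '' {c : C | e c < w}
  have hDc : D.Countable := by
    apply Set.Countable.image
    have h1 : (Set.Iio w).Countable := by
      rw [← Set.countable_coe_iff, ← Cardinal.mk_le_aleph0_iff]
      have h2 : #(Set.Iio w) < ℵ_ 1 := by
        have := Cardinal.mk_Iio_lt w (by rw [mk_toType, card_omega, ord_aleph, type_toType])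
        rwa [mk_toType, card_omega] at this
      rw [← succ_aleph0 ] at h2
      exact Order.lt_succ_iff.1 h2
    exact h1.preimage e.injective
  apply chain_of_countable D hDc F hF
  refine hw.trans ?_
  have h5 : Subtype.val '' (b ⁻¹' {w}) ⊆ {a : M | ∀ n, F a n ∈ D} := by
    rintro _ ⟨a, ha, rfl⟩ n
    refine ⟨⟨F a n, hXC a a.2 n⟩, ?_, rfl⟩
    have h6 := hb a n
    rw [Set.mem_preimage, Set.mem_singleton_iff] at ha
    rw [ha] at h6
    exact h6
  rw [← Cardinal.mk_image_eq (s := b ⁻¹' {w}) Subtype.val_injective]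
  exact Cardinal.mk_le_mk_of_subset h5

end H74CC
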