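import Pool.Agent.Helper74.CC.Dir
import Pool.Agent.Helper74.CC.Comb

open Cardinal Ordinal Filter Set

namespace H74CC

/-- Chang's conjecture `(κ, l) ↠ (δ, γ)`: every structure `M` of cardinality `κ` in a countable
first-order language, with a subset `B` of cardinality `l`, has an elementary substructure `X` of
cardinality `δ` such that `X ∩ B` has cardinality `γ`. -/
def Chang (κ l δ γ : Cardinal.{0}) : Prop :=
  ∀ (L : FirstOrder.Language.{0, 0}) (M : Type) [L.Structure M] (B : Set M),
    L.card ≤ ℵ₀ → #M = κ → #B = l →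
      ∃ X : L.ElementarySubstructure M, #X = δ ∧ #{x : X // (x : M) ∈ B} = γ

/-- The language with countably many function symbols of every arity. -/
def L₀ : FirstOrder.Language.{0, 0} := ⟨fun _ => ℕ, fun _ => Empty⟩

theorem card_L₀ : L₀.card ≤ ℵ₀ := by
  have : Countable L₀.Symbols := by
    unfold FirstOrder.Language.Symbols L₀
    infer_instance
  exact Cardinal.mk_le_aleph0_iff.2 this

theorem chang_hasChain (h : Chang (ℵ_ (ω + 1)) (ℵ_ ω) (ℵ_ 2) (ℵ_ 1)) : HasChain := by
  classical
  obtain ⟨F, hF1, hF2⟩ := exists_scale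
  let M : Type := (ℵ_ (ω + 1) : Cardinal.{0}).ord.ToType
  have hlt : ∀ a : M, ∀ n, F a n < (ℵ_ (ω + 1) : Cardinal.{0}).ord := fun a n => by
    rw [ord_aleph]
    exact (hF1 a n).trans (omega_lt_omega.2 (Order.lt_add_one_iff.2 le_rfl))
  let Φ : M → ℕ → M := fun a n => ToType.mk ⟨F a n, hlt a n⟩
  have hΦ : ∀ a b : M, a < b → ∀ᶠ n in atTop, Φ a n < Φ b n := fun a b hab => by
    filter_upwards [hF2 a b hab] with n hn
    exact ToType.mk.lt_iff_lt.2 hn
  let B : Set M := {x | (x.toOrd : Ordinal.{0}) < ω_ ω}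
  have hB : #B = ℵ_ ω := by
    have e : B ≃ (ω_ ω : Ordinal.{0}).ToType :=
      { toFun := fun x => ToType.mk ⟨(x.1.toOrd : Ordinal.{0}), x.2⟩
        invFun := fun y => ⟨ToType.mk ⟨(y.toOrd : Ordinal.{0}), by
          rw [ord_aleph]
          exact (show (y.toOrd : Ordinal.{0}) < ω_ ω from y.toOrd.2).trans
            (omega_lt_omega.2 (Order.lt_add_one_iff.2 le_rfl))⟩, by
            change ((ToType.mk.symm (ToType.mk _) : Set.Iio _) : Ordinal.{0}) < ω_ ω
            rw [OrderIso.symm_apply_apply]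
            exact y.toOrd.2⟩
        left_inv := fun x => by
          apply Subtype.ext
          apply ToType.mk.symm.injective
          apply Subtype.ext
          simp
        right_inv := fun y => by
          apply ToType.mk.symm.injective
          apply Subtype.ext
          simp }
    rw [Cardinal.mk_congr e, mk_toType, card_omega]
  letI : L₀.Structure M :=
    { funMap := fun {n} m x => if hn : 0 < n then Φ (x ⟨0, hn⟩) m else Φ (ToType.mk ⟨0, by
        rw [ord_aleph]
        exact omega_pos _⟩) m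
      RelMap := fun {n} r _ => nomatch r }
  obtain ⟨X, hX1, hX2⟩ := h L₀ M B card_L₀ (by rw [mk_toType, card_ord]) hB
  have hcl : ∀ a ∈ X, ∀ m, Φ a m ∈ X := by
    intro a ha m
    have h1 := X.toSubstructure.fun_mem (n := 1) (show L₀.Functions 1 from m) (fun _ => a)
      (fun _ => ha)
    exact h1
  have hΦB : ∀ a m, Φ a m ∈ B := by
    intro a m
    change ((ToType.mk.symm (ToType.mk _) : Set.Iio _) : Ordinal.{0}) < ω_ ω
    rw [OrderIso.symm_apply_apply]
    exact hF1 a m
  apply chain_of_aleph_one (X : Set M) ((X : Set M) ∩ B) hX1.ge ?_ Φ hΦ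
    (fun a ha m => ⟨hcl a ha m, hΦB a m⟩)
  rw [← hX2]
  exact Cardinal.mk_le_of_injective (f := fun x : ((X : Set M) ∩ B : Set M) =>
    (⟨⟨x.1, x.2.1⟩, x.2.2⟩ : {x : X // (x : M) ∈ B})) (fun x y hxy => by
      apply Subtype.ext
      have h1 := congrArg (fun z => (z.1 : M)) hxy
      exact h1)

end H74CC
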