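import Mathlib

/-! Chang's conjecture at `ℵ_ω` and chains in `P(ω)/fin` (MP_54abf9_lc, helper74). -/

open Cardinal Ordinal Filter Set

namespace H74CC

theorem chain_of_directed {P : Type*} (r : P → P → Prop) (I : Type) [LinearOrder I]
    [WellFoundedLT I] (h : ∀ i : I, ∀ F : Set.Iio i → P, ∃ g, ∀ j, r (F j) g) :
    ∃ F : I → P, ∀ i j, i < j → r (F i) (F j) := by
  classical
  choose G hG using h
  let F : I → P := (wellFounded_lt (α := I)).fix fun i ih => G i fun j => ih j.1 j.2
  have hF : ∀ i, F i = G i fun j => F j.1 := fun i => by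
    exact WellFounded.fix_eq (wellFounded_lt (α := I)) (fun i ih => G i fun j => ih j.1 j.2) i
  refine ⟨F, fun i j hij => ?_⟩
  rw [hF j]
  exact hG j (fun j' => F j'.1) ⟨i, hij⟩

/-- Every set of cardinality at least `κ` in a well-order contains an increasing copy of the
initial ordinal of `κ`. -/
theorem exists_strictMono {M : Type} [LinearOrder M] [WellFoundedLT M] (κ : Cardinal.{0})
    (X : Set M) (hX : κ ≤ #X) : ∃ f : κ.ord.ToType → M, StrictMono f ∧ ∀ i, f i ∈ X := by
  have h1 : κ.ord ≤ Ordinal.type (α := X) (· < ·) := by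
    rw [Cardinal.ord_le, Ordinal.card_type]
    exact hX
  rw [← Ordinal.type_toType κ.ord] at h1
  obtain ⟨e⟩ := Ordinal.type_le_iff.1 h1
  refine ⟨fun i => (e i : M), fun i j hij => ?_, fun i => (e i).2⟩
  exact e.map_rel_iff.2 hij

end H74CC
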