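import Pool.Agent.Helper74.CC.Basic

open Cardinal Ordinal Filter Set

namespace H74CC

/-- Functions `f` with `f n < ω_(n+1)`. -/
def G : Type 1 := {f : ℕ → Ordinal.{0} // ∀ n : ℕ, f n < ω_ (n + 1 : ℕ)}

theorem dir (ι : Type) (hι : #ι ≤ ℵ_ ω) (F : ι → G) :
    ∃ g : G, ∀ i, ∀ᶠ n in atTop, (F i).1 n < g.1 n := by
  classical
  have he : Nonempty (ι ↪ (ω_ ω).ToType) := by
    rw [← Cardinal.le_def, mk_toType, card_omega]
    exact hι
  obtain ⟨e⟩ := he
  let rk : ι → Ordinal.{0} := fun i => ((e i).toOrd : Ordinal.{0})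
  have hrk : ∀ i, rk i < ω_ ω := fun i => (e i).toOrd.2
  have hinj : Function.Injective rk := fun i j h => by
    apply e.injective
    apply ToType.mk.symm.injective
    exact Subtype.ext h
  let S : ℕ → Type := fun n => {i : ι // rk i < ω_ n}
  have hS : ∀ n : ℕ, #(S n) < ℵ_ (n + 1 : ℕ) := by
    intro n
    have h1 : Nonempty (S n ↪ (ω_ n).ToType) := by
      refine ⟨⟨fun i => ToType.mk ⟨rk i.1, i.2⟩, fun i j h => ?_⟩⟩
      have h2 := ToType.mk.injective h
      exact Subtype.ext (hinj (Subtype.mk.inj h2))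
    rw [← Cardinal.le_def, mk_toType, card_omega] at h1
    refine h1.trans_lt ?_
    rw [Cardinal.aleph_lt_aleph]
    exact_mod_cast Nat.lt_succ_self n
  have hreg : ∀ n : ℕ, (ℵ_ (n + 1 : ℕ)).IsRegular := fun n => by
    have := isRegular_aleph_succ (n : Ordinal.{0})
    rwa [← natCast_succ] at this
  have hlim : ∀ n : ℕ, Order.IsSuccLimit (ω_ (n + 1 : ℕ)) := fun n => isSuccLimit_omega _
  refine ⟨⟨fun n => ⨆ i : S n, Order.succ ((F i.1).1 n), fun n => ?_⟩, fun i => ?_⟩
  · rw [← ord_aleph]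
    refine iSup_lt_ord_of_isRegular (hreg n) (hS n) fun i => ?_
    rw [ord_aleph]
    exact (hlim n).succ_lt ((F i.1).2 n)
  · obtain ⟨m, hm, hlt⟩ := (isNormal_omega.lt_iff_exists_lt isSuccLimit_omega0).1 (hrk i)
    obtain ⟨k, rfl⟩ := lt_omega0.1 hm
    filter_upwards [eventually_ge_atTop k] with n hn
    have h3 : rk i < ω_ n := hlt.trans_le (by
      rw [omega_le_omega]
      exact_mod_cast hn)
    have h4 : Order.succ ((F i).1 n) ≤ ⨆ i : S n, Order.succ ((F i.1).1 n) :=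
      Ordinal.le_iSup (fun j : S n => Order.succ ((F j.1).1 n)) ⟨i, h3⟩
    exact (Order.lt_succ _).trans_le h4

/-- A sequence of length `ω_(ω+1)` of functions from `ℕ` to `ω_ω`, strictly increasing modulo
finite sets. -/
theorem exists_scale : ∃ F : (ℵ_ (ω + 1) : Cardinal.{0}).ord.ToType → ℕ → Ordinal.{0},
    (∀ a n, F a n < ω_ ω) ∧ ∀ a b, a < b → ∀ᶠ n in atTop, F a n < F b n := by
  obtain ⟨F, hF⟩ := chain_of_directed (P := G)
    (fun f g => ∀ᶠ n in atTop, f.1 n < g.1 n) (ℵ_ (ω + 1) : Cardinal.{0}).ord.ToType (by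
      intro i F
      apply dir _ _ F
      have h1 : #(Set.Iio i) < ℵ_ (ω + 1) := by
        have := Cardinal.mk_Iio_lt i (by rw [mk_toType, card_ord, type_toType])
        rwa [mk_toType, card_ord] at this
      have h2 : #(Set.Iio i) < Order.succ (ℵ_ ω) := by
        rw [← aleph_succ, Order.succ_eq_add_one]
        exact h1
      exact Order.lt_succ_iff.1 h2)
  refine ⟨fun a n => (F a).1 n, fun a n => ((F a).2 n).trans ?_, hF⟩
  rw [omega_lt_omega]
  exact nat_lt_omega0 _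

end H74CC
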